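import Mathlib
import Pool.Agent.U839.Gb.Fin

set_option autoImplicit false

/-!
# The number of Goldbach representations, in random models of the primes

The question is whether every even `n > 2` has at least `δ n / log² n` representations as a sum of two primes, for some
`δ > 0`; Hardy and Littlewood predict `HL(n) = S(n) n / log² n` representations, `S(n) = 2 C₂ ∏_{p ∣ n, p > 2}
(p - 1)/(p - 2) ≥ 2 C₂`. We study the question in sieved random models. Let `T` be nondecreasing, `T(n) → ∞` and
`T(n) ≤ n^(o(1))`. Only the integers `n` without prime factors `p ≤ T(n)` can be chosen, independently, with probability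
`∏_{p ≤ T(n)} (1 - 1/p)⁻¹ / log n`. (Granville's model has `T(n) = log n`.) Let `r(n)` be the number of pairs of chosen
integers with sum `n`. We prove that almost surely, for even `n`,

(1) `liminf r(n) / HL(n) = min(1, liminf log T(n) / log log n)`;

(2) `limsup r(n) / HL(n) = 1`;

(3) `liminf r(n) log² n / n = 2 C₂`: the uniform lower bound of the question holds, with the constant predicted by
Hardy and Littlewood, however slowly `T` tends to infinity;

(4) `r(n) ~ HL(n)` for all even `n → ∞` if and only if `T(n) ≥ (log n)^(1 - o(1))`: Granville's choice `T(n) = log n` is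
the critical one.

Proof. Given `n`, the pairs `{a, n - a}` are disjoint, so `r(n)` is concentrated near its mean (Chernoff). The mean is a
sum over `a` of truncated singular series `S_{T(a)}(n)` by the fundamental lemma, applied on the intervals on which
`T(a)` and `T(n - a)` are constant. The prime factors of `n` above `(log n)^(1 + o(1))` do not matter, and those
between `T(a)` and `log n` can contribute a factor up to `log log n / log T(a)`, by Mertens' theorem. This factor is
attained for multiples of the product of the primes up to `(log n) / 2`.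
-/

open MeasureTheory ProbabilityTheory Filter Topology

namespace Pool.Agent.Results.MP_dd84fd_nt.GoldbachInRandomModels

open Classical in
/-- `∏_{p ≤ T(n)} (1 - 1/p)⁻¹` if `n` has no prime factor `p ≤ T(n)`, and `0` otherwise. -/
noncomputable def weight (T : ℕ → ℕ) (n : ℕ) : ℝ :=
  if ∀ p, p.Prime → p ≤ T n → ¬ p ∣ n then
    ∏ p ∈ (Finset.Icc 1 (T n)).filter Nat.Prime, (1 - 1 / (p : ℝ))⁻¹ else 0

/-- The random model: `E n` is the event that `n` is chosen; these events are independent and have
probability `weight T n / log n` (if this is at most `1`, which is the case for all large `n` here). -/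
structure Model {Ω : Type*} [MeasurableSpace Ω] (μ : Measure Ω) (T : ℕ → ℕ) (E : ℕ → Set Ω) : Prop where
  meas : ∀ n, MeasurableSet (E n)
  indep : iIndepSet E μ
  law : ∀ n : ℕ, μ.real (E n) = min 1 (weight T n / Real.log n)

open Classical in
/-- The number of (ordered) pairs of elements of `Q` with sum `n`. -/
noncomputable def r (Q : Set ℕ) (n : ℕ) : ℕ :=
  ((Finset.HasAntidiagonal.antidiagonal n).filter (fun p => p.1 ∈ Q ∧ p.2 ∈ Q)).card

/-- The twin prime constant `C₂ = ∏_{p > 2} (1 - 1/(p - 1)²)`. -/
noncomputable def C₂ : ℝ := ⨅ z : ℕ, ∏ p ∈ (Finset.Icc 3 z).filter Nat.Prime, (1 - 1 / ((p : ℝ) - 1) ^ 2)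

/-- The prediction of Hardy and Littlewood, `2 C₂ ∏_{p ∣ n, p > 2} (p - 1)/(p - 2) · n / log² n`. -/
noncomputable def HL (n : ℕ) : ℝ :=
  2 * C₂ * (∏ p ∈ n.primeFactors.filter (fun p => 2 < p), ((p : ℝ) - 1) / (p - 2)) * n / (Real.log n) ^ 2

/-- `min(1, liminf log T(n) / log log n)`. -/
noncomputable def depth (T : ℕ → ℕ) : ℝ :=
  liminf (fun n : ℕ => min 1 (Real.log (T n) / Real.log (Real.log n))) atTop

/-- (1), (2), (3) and (4); the even integers are written `n = 2 m`. -/
theorem result {Ω : Type*} [MeasurableSpace Ω] {μ : Measure Ω} [IsProbabilityMeasure μ] (T : ℕ → ℕ)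
    (hT : Monotone T) (hTup : ∀ ε : ℝ, 0 < ε → ∀ᶠ n : ℕ in atTop, (T n : ℝ) ≤ (n : ℝ) ^ ε)
    (hTinf : Tendsto T atTop atTop) (E : ℕ → Set Ω) (hE : Model μ T E) :
    ∀ᵐ ω ∂μ,
      liminf (fun m : ℕ => (r {n | ω ∈ E n} (2 * m) : ℝ) / HL (2 * m)) atTop = depth T ∧
      limsup (fun m : ℕ => (r {n | ω ∈ E n} (2 * m) : ℝ) / HL (2 * m)) atTop = 1 ∧
      liminf (fun m : ℕ => (r {n | ω ∈ E n} (2 * m) : ℝ) * (Real.log (2 * m : ℕ)) ^ 2 / (2 * m : ℕ)) atTop
        = 2 * C₂ ∧
      (Tendsto (fun m : ℕ => (r {n | ω ∈ E n} (2 * m) : ℝ) / HL (2 * m)) atTop (𝓝 1) ↔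
        ∀ δ : ℝ, 0 < δ → ∀ᶠ n : ℕ in atTop, (Real.log n) ^ (1 - δ) ≤ T n) := by
  have h : Pool.Agent.U839.Sv.Sieved μ E T := ⟨hE.meas, hE.indep, hE.law⟩
  exact Pool.Agent.U839.Gb.main T hT hTup hTinf h

end Pool.Agent.Results.MP_dd84fd_nt.GoldbachInRandomModels
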