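import Pool.Agent.U828.KD.EvenG
import Pool.Agent.W93.GB4
import Pool.Agent.R459.C2

/-!
# The lower bound for the number of Goldbach representations near the values of arbitrary functions of higher convexity

Fix `r ≥ 2`. Let `x ≥ N ^ (1 / r + η)` and let `f` be ANY function on `{1, ..., x}` with values in `[-B N, B N]` whose
differences of order `r` are all at least `N / (x ^ r log ^ C N)`, or all at most the negative of this number (a
logarithmic factor less than their size for a function of the size `N` of the shape of a power). For all but at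
most `x / log ^ U N` of the `m ≤ x`, EVERY even positive integer `n` at a distance of at most `log ^ C N` from `f m` is a sum
of two different primes, in at least `1.3 n / log ^ 2 n` ways, and in the number of ways which Hardy and Littlewood predict
up to a relative error of at most `ε`.

For `r = 2` the function is strictly convex (or concave): `f (m + 1) - f m` is an arbitrary sequence with increments of at
least `N / (x ^ 2 log ^ C N)`. For larger `r` there are only `N ^ (1 / r + η)` points, so the even numbers run through
neighbourhoods of arbitrarily sparse sets (any power `N ^ θ`, `θ > 0`). The earlier results of this problem treat the values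
of functions with regularly varying derivatives of all orders (`NonIntegralOrderNeighbourhoods`) and of quadratic
polynomials (`QuadraticNeighbourhoods`). Here no regularity is assumed except the sign and the size of the `r`-th
differences; this contains all real polynomials of degree `r` and all functions `α m ^ c` with `c` no integer.

Definitions used (in `Pool.Agent.H560R3.GB`): `C₂`: the twin prime constant `∏_{p > 2} (1 - 1 / (p - 1) ^ 2)`; `sing n`: the
singular series `2 C₂ ∏_{p ∣ n, p > 2} (p - 1) / (p - 2)`; `g n`: the number of ordered representations of `n` as a sum of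
two primes.

Proof: the family is split into parts, on each of which an additive energy of a high order is nearly minimal, up to
powers of the logarithm (`Pool.Agent.U828.KD.energy_r`, helper828: an `r`-th derivative test of van der Corput's type for
arbitrary sequences, and Fejér kernels). The second moment of the error in the Goldbach problem is then small over the
family (`Pool.Agent.W93.GB.fam`, starting files); the passage to all the even integers near the values is
`Pool.Agent.U828.KD.nearEvenG` (helper828). The case `r = 2` of the energy theorem is in the starting files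
`Pool/Agent/K7/H49/CX` (helper49), whose theorem `goldbach` has not been handed in.
-/

set_option autoImplicit false

namespace Pool.Agent.Results.MP_dd84fd_nt.HigherConvexFunctions

open Finset Pool.Agent.H560R3.GB

/-- `n` is a sum of two different primes, `g n ≥ 1.3 n / log ^ 2 n`, and `g n` is `sing n * n / log ^ 2 n` up to a
relative error of at most `ε`. -/
def Rep (ε : ℝ) (n : ℕ) : Prop :=
  (∃ p q : ℕ, p.Prime ∧ q.Prime ∧ p ≠ q ∧ p + q = n) ∧
    13 / 10 * ((n : ℝ) / Real.log n ^ 2) ≤ g n ∧
    |(g n : ℝ) - sing n * ((n : ℝ) / Real.log n ^ 2)| ≤ ε * (sing n * ((n : ℝ) / Real.log n ^ 2))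

/-- The differences of order `r` of `f` on `{1, ..., x}` are all at least `κ`, or all at most `-κ`. Here `fwdDiff 1 f m`
is the difference `f (m + 1) - f m`. -/
def Bent (r x : ℕ) (f : ℕ → ℝ) (κ : ℝ) : Prop :=
  (∀ m, 1 ≤ m → m + r ≤ x → κ ≤ (fwdDiff 1)^[r] f m) ∨ (∀ m, 1 ≤ m → m + r ≤ x → (fwdDiff 1)^[r] f m ≤ -κ)

lemma rep_of_good (ε : ℝ) (n : ℕ) (h : Pool.Agent.W93.GB.Good (min ε (1 / 200)) n) : Rep ε n := by
  obtain ⟨h1, h2⟩ := h
  have hs := Pool.Agent.R459.sing_num n
  obtain ⟨Q, hQ⟩ : ∃ Q, Q = (n : ℝ) / Real.log n ^ 2 := ⟨_, rfl⟩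
  have hQ0 : 0 ≤ Q := by rw [hQ]; positivity
  have hHL : HL n = sing n * Q := by unfold HL; rw [hQ]
  rw [hHL] at h1
  have h3 : 327 / 250 * Q ≤ sing n * Q := mul_le_mul_of_nonneg_right hs hQ0
  have h4 : 0 ≤ sing n * Q := by
    refine le_trans ?_ h3
    positivity
  have h5 : min ε (1 / 200) * (sing n * Q) ≤ 1 / 200 * (sing n * Q) :=
    mul_le_mul_of_nonneg_right (min_le_right _ _) h4
  have h6 : min ε (1 / 200) * (sing n * Q) ≤ ε * (sing n * Q) :=
    mul_le_mul_of_nonneg_right (min_le_left _ _) h4
  refine ⟨h2, ?_, ?_⟩
  · rw [← hQ]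
    have h7 := (abs_le.1 (h1.trans h5)).1
    linarith
  · rw [← hQ]
    exact h1.trans h6

open Classical in
/-- Let `r ≥ 2`, `B`, `C`, `U`, `η > 0` and `ε > 0` be fixed. For all large `N`, all `x ≥ N ^ (1 / r + η)` and all functions
`f : {1, ..., x} → [-B N, B N]` whose differences of order `r` are all at least `N / (x ^ r log ^ C N)` or all at most the
negative of this number, all the `m ≤ x` but at most `x / log ^ U N` have the following property: every even integer
`n > 0` with `|n - f m| ≤ log ^ C N` satisfies `Rep ε n`. -/
theorem result (r : ℕ) (hr : 2 ≤ r) (B C U : ℕ) (η ε : ℝ) (hη : 0 < η) (hε : 0 < ε) : ∃ N₀ : ℕ, ∀ N : ℕ, N₀ ≤ N →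
    ∀ x : ℕ, (N : ℝ) ^ (1 / (r : ℝ) + η) ≤ x → ∀ f : ℕ → ℝ, (∀ m ∈ Icc 1 x, |f m| ≤ B * N) →
    Bent r x f (N / ((x : ℝ) ^ r * Real.log N ^ C)) →
    (((Icc 1 x).filter fun m => ¬ ∀ n : ℕ, 0 < n → Even n → |(n : ℝ) - f m| ≤ Real.log N ^ C →
      Rep ε n).card : ℝ) ≤ x / Real.log N ^ U := by
  obtain ⟨N₀, h0⟩ := Pool.Agent.U828.KD.nearEvenG r hr B C U η hη (Rep ε) (by
    intro p hp B C U
    obtain ⟨n1, h1⟩ := Pool.Agent.W93.GB.fam p B C U hp (min ε (1 / 200)) (lt_min hε (by norm_num))
    exact ⟨n1, fun N hN x s hs hE S hS hSb => h1 N hN x s hs hE S hS fun m hm hG =>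
      hSb m hm (rep_of_good ε (s m) hG)⟩)
  refine ⟨N₀, fun N hN x hx f hf hb => ?_⟩
  apply h0 N hN x hx f hf hb _ (filter_subset _ _)
  intro m hm
  have h1 := (mem_filter.1 hm).2
  push Not at h1
  exact h1

end Pool.Agent.Results.MP_dd84fd_nt.HigherConvexFunctions
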