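import Pool.Agent.U832.RG.PrimeUse
import Pool.Agent.U832.RH.GeD

/-!
# EVERY even `N`: representations of `N` by primes and almost primes in a Poisson environment

For EVERY large even `N` let `S` be the set of the `m ≤ N` for which neither `m` nor `N - m` has a prime factor
`≤ N ^ (1 / r)`. Around the PRIMES in `S`, that is around the representations `N = p + m` with a prime `p` and `m`
without prime factors `≤ N ^ (1 / r)`, the elements of `S` form a Poisson process: the numbers of elements of `S` in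
disjoint windows are independent Poisson variables. The same holds around arbitrary elements of `S`, around arbitrary
integers, and around the `m` for which `m` and `N - m` have at most `R` prime factors each, all `> N ^ w` (where `R` and
`w` do not depend on the windows), there in all short intervals of all arithmetic progressions with moduli
`q ≤ N ^ (1 - δ)`.
-/

set_option autoImplicit false

namespace Pool.Agent.Results.MP_dd84fd_nt.PoissonRepresentations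

open Finset Filter Pool.Agent.U832.RG Pool.Agent.U832.RH

/-- The `m` with `N = m₁ + m₂`, `m₁ = q m + a` and `m₂ ≥ 0`, for which neither `m₁` nor `m₂` has a prime factor
`≤ y`. -/
def Rep (N q a y : ℕ) : Set ℕ :=
  {m | q * m + a ≤ N ∧ ∀ p : ℕ, p.Prime → p ≤ y → ¬ p ∣ q * m + a ∧ ¬ p ∣ N - (q * m + a)}

/-- The `m` in `Rep N q a z` for which `q m + a` and `N - (q m + a)` have at most `R` prime factors each, counted with
multiplicity. -/
def AlmostRep (N q a R z : ℕ) : Set ℕ :=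
  {m | m ∈ Rep N q a z ∧ (q * m + a).primeFactorsList.length ≤ R ∧ (N - (q * m + a)).primeFactorsList.length ≤ R}

/-- The product, over the primes `p ≤ y` which do not divide `q`, of `1 - 1 / p` for `p ∣ N` and of `1 - 2 / p`
for the others. -/
noncomputable def V (N q y : ℕ) : ℝ :=
  ∏ p ∈ (Icc 1 y).filter Nat.Prime, (1 - (if p ∣ q then 0 else if p ∣ N then 1 else 2 : ℕ) / (p : ℝ))

section aux

open Pool.Agent.Y879.GL Pool.Agent.Y879.AP Pool.Agent.TH464.PO Pool.Agent.H373R2.T7 Pool.Agent.W123.RP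

lemma rep_iff {N q a y m : ℕ} (h : q * m + a ≤ N) :
    m ∈ Rep N q a y ↔ Sf (Pool.Agent.W123.RU.Poly.Q (pf (-1) N q a)) y m := by
  have key : ∀ p : ℕ, p.Prime → (Pool.Agent.W123.RU.Poly.Q (pf (-1) N q a) p m ↔
      p ∣ q * m + a ∨ p ∣ N - (q * m + a)) := by
    intro p hp
    rw [pf_Q _ _ _ _ _ _ hp]
    unfold Q2
    have e : ((q * m + a : ℕ) : ℤ) * (-1 * ((q * m + a : ℕ) : ℤ) + (N : ℤ)) =
        (((q * m + a) * (N - (q * m + a)) : ℕ) : ℤ) := by
      rw [Nat.cast_mul, Nat.cast_sub h]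
      ring
    rw [e, Int.natCast_dvd_natCast, hp.dvd_mul]
  constructor
  · intro h1 p hp
    have hp' := mem_pz.1 hp
    rw [key p hp'.2]
    push Not
    exact h1.2 p hp'.2 hp'.1
  · intro h1
    refine ⟨h, fun p hp hpy => ?_⟩
    have h2 := h1 p (mem_pz.2 ⟨hpy, hp⟩)
    rw [key p hp] at h2
    push Not at h2
    exact h2

lemma V_eq (N q y : ℕ) : Vq (Qn (Q2 (-1) N) q) y = V N q y := by
  unfold Vq V
  apply Finset.prod_congr rfl
  intro p hp
  have hp' := (mem_filter.1 hp).2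
  congr 3
  by_cases h : p ∣ q
  · rw [nuB_Qn_dvd _ _ _ h, if_pos h]
  · rw [nuB_Qn_not _ _ _ h, if_neg h, nuB_Q2 (-1) N (by norm_num) p hp']
    unfold nu2
    by_cases h2 : p ∣ N
    · rw [if_pos (Int.natCast_dvd_natCast.2 h2), if_pos h2]
    · rw [if_neg (fun h3 => h2 (Int.natCast_dvd_natCast.1 h3)), if_neg h2]

/-- the law around primes, in the notation of the library -/
lemma primes_aux (θ δ : ℝ) (hθ : 0 < θ) (hδ : 0 < δ) (hδ1 : δ ≤ 1) (J L : ℕ) (x₀ ε : ℝ) (hε : 0 < ε) :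
    ∃ r₀ : ℕ, ∀ r : ℕ, r₀ ≤ r → ∀ᶠ N : ℕ in atTop, Even N → ∀ y : ℕ, y = ⌊(N : ℝ) ^ (1 / (r : ℝ))⌋₊ →
      ∀ X Z Y T : ℕ, (N : ℝ) ^ θ ≤ X → δ * X ≤ Z → δ * X ≤ Y → Z + Y ≤ X → T * V N 1 y ≤ x₀ → Z + Y + T ≤ N →
        PrimeLaw (Rep N 1 0 y) (V N 1 y) y J L ε X Z Y T := by
  obtain ⟨r1, h⟩ := plaw_polys 2 1 2 (1 / 2) θ δ two_pos (by norm_num) hθ hδ hδ1 J L x₀ ε hε
  refine ⟨max r1 2, fun r hr => ?_⟩
  have hr2 : 2 ≤ r := (le_max_right _ _).trans hr
  obtain ⟨M, hM, hV⟩ := pf_Vup 1 one_pos r hr2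
  filter_upwards [h r ((le_max_left _ _).trans hr) M, hV, eventually_ge_atTop 2] with N hN hVN hN2
  intro hev y hy X Z Y T hX hZ hY hZY hT hZN
  have hN2r : (2 : ℝ) ≤ N := by exact_mod_cast hN2
  have hN0 : (0 : ℝ) < N := by linarith
  have hN1 : (1 : ℝ) < N := by linarith
  have e2 : (N : ℝ) ^ (2 : ℝ) = N * N := by rw [Real.rpow_two, sq]
  have hcop : IsCoprime ((1 : ℕ) : ℤ) (-1 * ((0 : ℕ) : ℤ) + (N : ℤ)) := by
    rw [Nat.cast_one]
    exact isCoprime_one_left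
  have hus := pf_us (-1) N (by norm_num) (by exact_mod_cast hev) 1 0 le_rfl (by norm_num) hcop ((N : ℝ) ^ (2 : ℝ))
    (by rw [e2]; push_cast; nlinarith) (by rw [e2]; push_cast; nlinarith [abs_of_pos hN0])
  have hno := pf_noas (-1) N (by norm_num) 1 0 le_rfl ∅ ((N : ℝ) ^ (1 / 2 : ℝ)) (fun t ht htN _ heq => by
    have h2 : (N : ℤ) = (t : ℤ) := by
      have h3 := sq_eq_sq₀ (a := (N : ℤ)) (b := ((1 : ℕ) : ℤ) * t) (by positivity) (by positivity)
      have h4 := h3.1 heq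
      rwa [Nat.cast_one, one_mul] at h4
    have h4 : (N : ℝ) = t := by exact_mod_cast h2
    have h6 : (N : ℝ) ^ (1 / 2 : ℝ) < (N : ℝ) ^ (1 : ℝ) :=
      Real.rpow_lt_rpow_of_exponent_lt hN1 (by norm_num)
    rw [Real.rpow_one] at h6
    linarith)
  have hus2 : US 2 1 ((N : ℝ) ^ (2 : ℝ)) ((N : ℝ) ^ (1 / 2 : ℝ)) (pf (-1) N 1 0) :=
    { irr := hus.irr, deg := hus.deg, degD := hus.degD, hgt := hus.hgt, adm := hus.adm
      tr := fun i j t ht htU => hno i j t ht htU (by simp) }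
  have hVe := pf_Vq (-1) N (by norm_num) 1 0 ⌊(N : ℝ) ^ (1 / (r : ℝ))⌋₊ (by norm_num) hcop
  have h4 := hN (pf (-1) N 1 0) hus2 ⟨0, fun n => by simp [pf, lf, ca, cb]⟩ (by
    rw [hVe]
    exact hVN (-1) N 1 (by norm_num) (by exact_mod_cast hev) (by positivity)
      (by rw [Real.rpow_one]; simp) le_rfl (by rw [Real.rpow_one]; push_cast; linarith)) X Z Y hX hZ hY hZY T
  rw [hVe, ← hy, V_eq] at h4
  exact h4 hT (Rep N 1 0 y) (fun m hm => rep_iff (by omega))

lemma almost_iff {N q a m z : ℕ} {w : ℝ} (hN : 2 ≤ N) (hw : 0 < w) (hz : z = ⌊(N : ℝ) ^ w⌋₊) (hz2 : 2 ≤ z) :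
    m ∈ AlmostRep N q a ⌊(1 : ℝ) / w⌋₊ z ↔ m ∈ Rep N q a z := by
  refine ⟨fun h1 => h1.1, fun h1 => ⟨h1, ?_, ?_⟩⟩
  · apply few_factors N w 1 hN hw
    · intro h0
      exact (h1.2 2 Nat.prime_two hz2).1 (by rw [h0]; exact dvd_zero 2)
    · rw [Real.rpow_one]
      exact_mod_cast h1.1
    · intro p hp hpz
      exact (h1.2 p hp (by rw [hz]; exact hpz)).1
  · apply few_factors N w 1 hN hw
    · intro h0
      exact (h1.2 2 Nat.prime_two hz2).2 (by rw [h0]; exact dvd_zero 2)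
    · rw [Real.rpow_one]
      exact_mod_cast Nat.sub_le _ _
    · intro p hp hpz
      exact (h1.2 p hp (by rw [hz]; exact hpz)).2

end aux

/-- Let `θ, η > 0`, `0 < δ ≤ 1`. There are `w > 0` and `R`, such that for all `J`, `L`, `x₀`, all `ε > 0` and all large
`r`: for ALL large even `N`, with `y = ⌊N ^ (1 / r)⌋`, `z = ⌊N ^ w⌋`:
(1) the set `Rep N 1 0 y` of the `m ≤ N` for which neither `m` nor `N - m` has a prime factor `≤ y` satisfies `PrimeLaw`
for all `X ≥ N ^ θ`, all `(Z, Z + Y]` with `δ X ≤ Z`, `δ X ≤ Y`, `Z + Y ≤ X` and all `T` with `T V ≤ x₀` and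
`Z + Y + T ≤ N`: for all disjoint windows `(a j, b j] ⊆ (0, T]`, `j < J`, all `s ≤ T` outside of them and all
`k j ≤ L`, the number of the `n` in `(Z, Z + Y]` for which `n + s` is a PRIME in `Rep N 1 0 y` and exactly `k j`
elements of `Rep N 1 0 y` lie in `(n + a j, n + b j]` for all `j` is `Y V / (mertens y * log X) Π`, up to
`ε Y V / (mertens y * log X)`, where `Π` is the product of the probabilities that a Poisson variable of mean
`(b j - a j) V` has the value `k j`. (For `J = 0` this is the number of the primes `p` for which `N - p` has no prime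
factor `≤ y`.)
(2) For ALL `q ≤ N ^ (1 - δ)`, all `a ≤ N` with `a` and `N - a` prime to `q`, ALL intervals `(Z, Z + Y]` with
`Y ≥ N ^ θ` and all `T` with `T V ≤ x₀`, `V = V N q y`, and `q (Z + Y + T) + a ≤ N`: the set `Rep N q a y` of the `m`
for which neither `q m + a` nor `N - (q m + a)` has a prime factor `≤ y` satisfies `PoissonLaw`: the same for arbitrary
elements `n + s`, with `Y V` instead of `Y V / (mertens y * log X)`, and for arbitrary integers `n`, with `Y`; and the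
number of the `n` in `(Z, Z + Y]` with `n + s ∈ AlmostRep N q a R z`, with the same windows, is `Y W Π` up to
`(η Π + ε) Y W`, `W = V N q z`. -/
theorem result (θ δ η : ℝ) (hθ : 0 < θ) (hδ : 0 < δ) (hδ1 : δ ≤ 1) (hη : 0 < η) :
    ∃ w : ℝ, 0 < w ∧ ∃ R : ℕ, ∀ (J L : ℕ) (x₀ ε : ℝ), 0 < ε →
    ∃ r₀ : ℕ, ∀ r : ℕ, r₀ ≤ r → ∀ᶠ N : ℕ in atTop, Even N → ∀ y z : ℕ, y = ⌊(N : ℝ) ^ (1 / (r : ℝ))⌋₊ →
      z = ⌊(N : ℝ) ^ w⌋₊ →
      (∀ X Z Y T : ℕ, (N : ℝ) ^ θ ≤ X → δ * X ≤ Z → δ * X ≤ Y → Z + Y ≤ X → T * V N 1 y ≤ x₀ → Z + Y + T ≤ N →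
        PrimeLaw (Rep N 1 0 y) (V N 1 y) y J L ε X Z Y T) ∧
      ∀ q a : ℕ, 1 ≤ q → (q : ℝ) ≤ (N : ℝ) ^ (1 - δ) → a ≤ N → Nat.Coprime q a → Nat.Coprime q (N - a) →
      ∀ Z Y T : ℕ, (N : ℝ) ^ θ ≤ Y → T * V N q y ≤ x₀ → q * (Z + Y + T) + a ≤ N →
        PoissonLaw (Rep N q a y) (V N q y) J L ε Z Y T ∧
        CentreLaw (AlmostRep N q a R z) (Rep N q a y) (V N q z) (V N q y) J L η ε Z Y T := by
  have cop : ∀ {N q a : ℕ}, a ≤ N → Nat.Coprime q (N - a) → IsCoprime (q : ℤ) (-1 * (a : ℤ) + (N : ℤ)) := by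
    intro N q a ha h
    have e : -1 * (a : ℤ) + (N : ℤ) = ((N - a : ℕ) : ℤ) := by rw [Nat.cast_sub ha]; ring
    rw [e]
    exact Nat.isCoprime_iff_coprime.2 h
  have qle : ∀ {N q : ℕ}, 1 ≤ N → (q : ℝ) ≤ (N : ℝ) ^ (1 - δ) → (q : ℝ) ≤ (N : ℝ) ^ (1 : ℝ) := by
    intro N q hN h
    refine h.trans (Real.rpow_le_rpow_of_exponent_le (by exact_mod_cast hN) (by linarith))
  obtain ⟨w, hw, hG⟩ := lawG_prog2 1 (δ / 2) θ one_pos (by linarith) hθ η hη
  refine ⟨w, hw, ⌊(1 : ℝ) / w⌋₊, ?_⟩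
  intro J L x₀ ε hε
  obtain ⟨r₁, hp⟩ := primes_aux θ δ hθ hδ hδ1 J L x₀ ε hε
  obtain ⟨r₀, h⟩ := law_prog2 1 (δ / 2) θ one_pos (by linarith) hθ J L x₀ ε hε
  obtain ⟨r₂, h'⟩ := hG w hw le_rfl J L x₀ ε hε
  have hpow : Tendsto (fun X : ℕ => (X : ℝ) ^ w) atTop atTop :=
    (tendsto_rpow_atTop hw).comp tendsto_natCast_atTop_atTop
  refine ⟨max (max r₀ r₂) r₁, fun r hr => ?_⟩
  filter_upwards [h r (((le_max_left _ _).trans (le_max_left _ _)).trans hr), hp r ((le_max_right _ _).trans hr),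
    h' r (((le_max_right _ _).trans (le_max_left _ _)).trans hr), hpow.eventually_ge_atTop 2,
    eventually_ge_atTop 2] with N hN hpN hN' hNw hN2
  intro hev y z hy hz
  refine ⟨hpN hev y hy, ?_⟩
  intro q a hq hqN haN hqa hqNa Z Y T hY hT hZ
  have hN1 : (1 : ℝ) < N := by exact_mod_cast hN2
  have hN0 : (0 : ℝ) < N := by linarith
  have hz2 : 2 ≤ z := by
    rw [hz]
    exact Nat.le_floor (by exact_mod_cast hNw)
  have hne : ∀ t : ℕ, 1 ≤ t → (t : ℝ) ≤ (N : ℝ) ^ (δ / 2) → (N : ℤ) ^ 2 ≠ ((q : ℤ) * t) ^ 2 := fun t ht htN heq => by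
    have h2 : (N : ℤ) = (q : ℤ) * t := by
      have h3 := sq_eq_sq₀ (a := (N : ℤ)) (b := (q : ℤ) * t) (by positivity) (by positivity)
      exact h3.1 heq
    have h4 : (N : ℝ) = (q : ℝ) * t := by exact_mod_cast h2
    have h5 : (q : ℝ) * t ≤ (N : ℝ) ^ (1 - δ) * (N : ℝ) ^ (δ / 2) :=
      mul_le_mul hqN htN (Nat.cast_nonneg _) (by positivity)
    rw [← Real.rpow_add hN0] at h5
    have h6 : (N : ℝ) ^ (1 - δ + δ / 2) < (N : ℝ) ^ (1 : ℝ) :=
      Real.rpow_lt_rpow_of_exponent_lt hN1 (by linarith)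
    rw [Real.rpow_one] at h6
    linarith
  have hle : ∀ m ≤ Z + Y + T, q * m + a ≤ N := fun m hm => by
    have := Nat.mul_le_mul_left q hm
    omega
  constructor
  · have h1 := hN (-1) N q a (by norm_num) (by exact_mod_cast hev) (by positivity)
      (by rw [Real.rpow_one]; simp) hq (qle (by omega) hqN)
      (by rw [Real.rpow_one]; exact_mod_cast haN) hqa (cop haN hqNa) hne Z Y hY T
    rw [← hy, V_eq] at h1
    exact h1 hT (Rep N q a y) (fun m hm => rep_iff (hle m hm))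
  · have h1 := hN' y z hy hz (-1) N q a (by norm_num) (by exact_mod_cast hev) (by positivity)
      (by rw [Real.rpow_one]; simp) hq (qle (by omega) hqN)
      (by rw [Real.rpow_one]; exact_mod_cast haN) hqa (cop haN hqNa) hne Z Y hY T
    rw [V_eq, V_eq] at h1
    exact h1 hT (AlmostRep N q a ⌊(1 : ℝ) / w⌋₊ z) (Rep N q a y) (fun m hm => rep_iff (hle m hm))
      (fun m hm => (almost_iff hN2 hw hz hz2).trans (rep_iff (hle m hm)))

end Pool.Agent.Results.MP_dd84fd_nt.PoissonRepresentations
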