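import Pool.Agent.U308.GL.Core
import Pool.Agent.Results.MP_dd84fd_nt.QuadraticNeighbourhoods

/-!
# The lower bound for the number of Goldbach representations, in all long windows and in all classes to small moduli, for all the
# even multiples of all the integers near almost all very smooth numbers

Definitions used:
* in `Pool.Agent.H560R3.GB`: `g m`: the number of ordered representations of `m` as a sum of two primes; `sing m`: the
  singular series `2 C₂ ∏_{p ∣ m, p > 2} (p - 1) / (p - 2)`, where `C₂ = ∏_{p > 2} (1 - 1 / (p - 1) ^ 2)`;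
* in the starting file `Pool.Agent.Results.MP_dd84fd_nt.QuadraticNeighbourhoods`: `Holds ε A m`: `g m ≥ 1.3 m / log ^ 2 m`, and
  the corresponding lower bound and asymptotic formula hold for the representations `m = p + p'` with `p` in any window
  `(y₁, y₂] ⊆ (0, m]` of length at least `m / log ^ A m`;
* in `Pool.Agent.U308.GL.Core`: `G m d a y₁ y₂`: the number of the representations `m = p + p'` with `y₁ < p ≤ y₂` and
  `p ≡ a mod d`; `classes m d`: the number of the classes `x mod d` with `x` and `m - x` prime to `d`; `Classes ε A D m`: for all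
  `d ≤ log ^ D m`, all the classes `a mod d` with `a` and `m - a` prime to `d` and all the windows `(y₁, y₂] ⊆ (0, m)` of length
  at least `m / log ^ A m`, `G m d a y₁ y₂` is at least `1.3 (y₂ - y₁) / (classes m d * log ^ 2 m)`, and it is
  `sing m * (y₂ - y₁) / (classes m d * log ^ 2 m)` up to a relative error of at most `ε`.

Method (helper308). For smooth numbers with `y ≥ log ^ (2 + δ) N` such results are in the starting files (for other problems).
Below `log ^ 2 N` the exponential sum over the integers composed of primes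
from `P` cannot be bounded in the same way. New is a weight `w(v)`, the number of the representations `v = m₁ m₂ u`, where
`m₁` and `m₂` are products of `h` different primes from one dyadic class of `P` with more elements than the square root of the
primes, and `u` is composed of primes from `P`: the weighted exponential sum is small except near few rational numbers with
small denominators (`Pool.Agent.U308.SH.chain`, `Pool.Agent.U308.SH.bilin`, `Pool.Agent.U308.SG.exp_rr`), and `w(v)` is at least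
`1 / log N` of its mean value for almost all `v` (`Pool.Agent.U308.SG.structB`, `Pool.Agent.U308.SG.dom2`), so that a property
which holds with the weight `w` for almost all `v` holds for almost all `v` (`Pool.Agent.U308.TL.sm_tlaw2`, `dom_le`). The
second moment arguments for Goldbach pairs in windows and for primes in linear forms in progressions are from the starting files.
-/

set_option autoImplicit false

namespace Pool.Agent.Results.MP_dd84fd_nt.VerySmoothNumbers

open Finset Pool.Agent.H560R3.GB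
open Pool.Agent.U308.GL (G classes Classes)
open Pool.Agent.Results.MP_dd84fd_nt.QuadraticNeighbourhoods (Holds holds_of)

/-- The integers `1 ≤ v ≤ N` all of whose prime factors belong to `P`. -/
def composedOf (P : Finset ℕ) (N : ℕ) : Finset ℕ := (Icc 1 N).filter fun v : ℕ => v.primeFactors ⊆ P

/-- The `y`-smooth integers `1 ≤ v ≤ N`. -/
def smooth (y N : ℕ) : Finset ℕ := (Icc 1 N).filter fun v : ℕ => ∀ p ∈ v.primeFactors, p ≤ y

/-- All the even multiples `h q` with `1 ≤ h ≤ H` satisfy `Holds ε A`, and those with `h ≤ M` satisfy `Classes ε A D`. -/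
def Good (ε : ℝ) (A D M : ℕ) (H : ℝ) (q : ℕ) : Prop :=
  ∀ h : ℕ, 1 ≤ h → Even (h * q) → ((h : ℝ) ≤ H → Holds ε A (h * q)) ∧ (h ≤ M → Classes ε A D (h * q))

theorem key (A D M J W U K B : ℕ) (κ : ℤ) (hκ : κ ≠ 0) (ε : ℝ) (hε : 0 < ε) (δ : ℝ) (hδ : 0 < δ) :
    ∃ N₀ : ℕ, ∀ N, N₀ ≤ N → ∀ P y, Pool.Agent.U308.TL.Cond2 δ K N P y → ∀ E : ℕ → Prop, ∀ _ : DecidablePred E,
    (∃ c : ℤ, |c| ≤ B * N ∧ ∀ v, E v → 1 ≤ v ∧ v ≤ N ∧ ∃ q : ℕ, 1 ≤ q ∧ |((q - (c + κ * v) : ℤ) : ℝ)| ≤ Real.log N ^ W ∧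
      ¬ Good ε A D M (Real.log N ^ J) q) →
    ∑ v ∈ Pool.Agent.N469.SM.SS P N, (if E v then 1 / ((Pool.Agent.N469.SM.SS P N).card : ℝ) else 0) ≤ 1 / Real.log N ^ U := by
  classical
  obtain ⟨N1, h1⟩ := Pool.Agent.U308.TL.sm_mult2 κ hκ K B A W J (U + 1) 3 (min ε (1 / 200)) (lt_min hε (by norm_num))
    (fun m => Holds ε A m) (fun m hm _ hw => holds_of A ε m hm hw) δ hδ
  obtain ⟨N2, h2⟩ := Pool.Agent.U308.GL.sm_all κ hκ K B A D W ε hε δ hδ M (U + 1)
  obtain ⟨N3, h3⟩ := Pool.Agent.H373R2.T7.ev_L' 2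
  refine ⟨N1 + N2 + N3, fun N hN P y hP E _ hE => ?_⟩
  obtain ⟨c, hc, hbad⟩ := hE
  refine Pool.Agent.N469.LP.or_event (h3 N (by omega)) U E
    (fun v => ∃ h : ℕ, 1 ≤ h ∧ (h : ℝ) ≤ Real.log N ^ J ∧ ∃ r : ℤ, |(r : ℝ)| ≤ Real.log N ^ W ∧
      0 < (h : ℤ) * (c + κ * (v : ℤ) + r) ∧ 2 ∣ (h : ℤ) * (c + κ * (v : ℤ) + r) ∧ ¬ Holds ε A ((h : ℤ) * (c + κ * (v : ℤ) + r)).toNat)
    (fun v => 1 ≤ v ∧ v ≤ N ∧ ∃ h : ℕ, 1 ≤ h ∧ h ≤ M ∧ ∃ q : ℕ, 1 ≤ q ∧
      |((q - (c + κ * v) : ℤ) : ℝ)| ≤ Real.log N ^ W ∧ Even (h * q) ∧ ¬ Classes ε A D (h * q)) ?_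
    (h1 N (by omega) P y hP _ (fun v => inferInstance) ⟨c, hc, fun v hv => hv⟩)
    (h2 N (by omega) P y hP _ (fun v => inferInstance) ⟨c, hc, fun v hv => hv⟩)
  intro v hv
  obtain ⟨v1, v2, q, hq1, hq, hnot⟩ := hbad v hv
  unfold Good at hnot
  push Not at hnot
  obtain ⟨h, hh1, hev, hb⟩ := hnot
  by_cases hA : (h : ℝ) ≤ Real.log N ^ J → Holds ε A (h * q)
  · right
    obtain ⟨hM, hC⟩ := hb hA
    exact ⟨v1, v2, h, hh1, hM, q, hq1, hq, hev, hC⟩
  · left
    push Not at hA
    have e0 : (h : ℤ) * (c + κ * (v : ℤ) + ((q : ℤ) - (c + κ * v))) = ((h * q : ℕ) : ℤ) := by push_cast; ring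
    refine ⟨h, hh1, hA.1, (q : ℤ) - (c + κ * v), hq, ?_⟩
    rw [e0, Int.toNat_natCast]
    refine ⟨?_, by exact_mod_cast hev.two_dvd, hA.2⟩
    have : 0 < h * q := Nat.mul_pos (by omega) (by omega)
    exact_mod_cast this

open Classical in
/-- Let `A`, `D`, `M`, `J`, `W`, `U`, `K`, `B`, the integer `κ ≠ 0`, `ε > 0` and `δ > 0` be fixed, let `N` be large,
`y ≤ log ^ K N`, and let `c` be an arbitrary integer with `|c| ≤ B N`.

(1) Let `P` be an arbitrary set of primes which are at most `y`, with at least `y ^ (1 / 2 + δ)` and at least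
`log ^ (1 + δ) N` elements. Then for all the integers `1 ≤ v ≤ N` composed of primes from `P`, up to a proportion of at most
`1 / log ^ U N` of them, ALL the integers `q ≥ 1` with `|q - (c + κ v)| ≤ log ^ W N` are `Good`: every even multiple
`m = h q`, `1 ≤ h ≤ log ^ J N`, has at least `1.3 m / log ^ 2 m` representations as a sum of two primes, and the same is true
(with the asymptotic formula, relative error at most `ε`) in all the windows of length at least `m / log ^ A m`; and if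
`h ≤ M`, this holds also for the representations with one prime in any admissible class `a mod d`, `d ≤ log ^ D m`, and in the
window. (For `h = 1` these are all the even integers near `c + κ v`. There can be fewer than `N ^ δ` such integers `v`.)

(2) In particular this holds for all the `y`-smooth integers `1 ≤ v ≤ N`, up to a proportion of at most `1 / log ^ U N` of them,
if `y ≥ log ^ (1 + δ) N`. -/
theorem result (A D M J W U K B : ℕ) (κ : ℤ) (hκ : κ ≠ 0) (ε : ℝ) (hε : 0 < ε) (δ : ℝ) (hδ : 0 < δ) :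
    ∃ N₀ : ℕ, ∀ N, N₀ ≤ N → ∀ y : ℕ, (y : ℝ) ≤ Real.log N ^ K → ∀ c : ℤ, |c| ≤ B * N →
      (∀ P : Finset ℕ, (∀ p ∈ P, p.Prime ∧ p ≤ y) → (y : ℝ) ^ (1 / 2 + δ) ≤ P.card → Real.log N ^ (1 + δ) ≤ P.card →
        (((composedOf P N).filter fun v : ℕ => ∃ q : ℕ, 1 ≤ q ∧ |((q - (c + κ * v) : ℤ) : ℝ)| ≤ Real.log N ^ W ∧
          ¬ Good ε A D M (Real.log N ^ J) q).card : ℝ) ≤ ((composedOf P N).card : ℝ) / Real.log N ^ U) ∧
      (Real.log N ^ (1 + δ) ≤ y →
        (((smooth y N).filter fun v : ℕ => ∃ q : ℕ, 1 ≤ q ∧ |((q - (c + κ * v) : ℤ) : ℝ)| ≤ Real.log N ^ W ∧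
          ¬ Good ε A D M (Real.log N ^ J) q).card : ℝ) ≤ ((smooth y N).card : ℝ) / Real.log N ^ U) := by
  obtain ⟨N₀, h0⟩ := Pool.Agent.U308.TL.both2 δ hδ K U _ (fun δ hδ => key A D M J W U K B κ hκ ε hε δ hδ)
  refine ⟨N₀, fun N hN y hy' c hc => ?_⟩
  obtain ⟨k1, k2⟩ := h0 N hN y hy' (fun v : ℕ => 1 ≤ v ∧ v ≤ N ∧ ∃ q : ℕ, 1 ≤ q ∧ |((q - (c + κ * v) : ℤ) : ℝ)| ≤ Real.log N ^ W ∧
          ¬ Good ε A D M (Real.log N ^ J) q) (fun v => inferInstance) ⟨c, hc, fun v hv => hv⟩
  refine ⟨fun P hP hc1 hc2 => ?_, fun hyl => ?_⟩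
  · refine le_trans (le_of_eq ?_) (k1 P hP hc1 hc2)
    congr 1
    congr 1
    apply filter_congr
    intro v hv
    rw [composedOf, mem_filter, mem_Icc] at hv
    exact ⟨fun h => ⟨hv.1.1, hv.1.2, h⟩, fun h => h.2.2⟩
  · refine le_trans (le_of_eq ?_) (k2 hyl)
    congr 1
    congr 1
    apply filter_congr
    intro v hv
    rw [smooth, mem_filter, mem_Icc] at hv
    exact ⟨fun h => ⟨hv.1.1, hv.1.2, h⟩, fun h => h.2.2⟩

end Pool.Agent.Results.MP_dd84fd_nt.VerySmoothNumbers
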